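import Pool.Agent.R871.SG.UniC

/-!
MP_308c18_ag, Q1: a bound for the degrees of curves in terms of their genus, and holomorphic maps of slow
growth from affine curves.
-/

set_option autoImplicit false

namespace Pool.Agent.Results.MP_308c18_ag.DegreesOfSlowCurves

open Pool.Agent.R871.SG MvPolynomial

/-- Let `X ⊂ ℙˢ⁻¹` be the projective variety defined by the homogeneous polynomials `F`, over the complex
numbers. There is a function `φ` with `φ r / log r → ∞` for `r → ∞` such that for all closed subsets
`Z = {G = 0}` (`G` homogeneous of positive degrees) and all numbers `d`, `m`, `D` the following are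
equivalent.

(1) For all plane affine curves `B = {(x, y) | y ^ d + a₁(x) y ^ (d - 1) + ⋯ + a_d(x) = 0}`, with
polynomials `a_i` of degree at most `m`, and all algebraic maps `B → X` which map no component of `B`
to `Z` (given by homogeneous coordinates which are polynomials in `x` and `y`), every linear projection
of the image to the plane is contained in a plane curve of degree `D`: for every linear map
`L : ℂˢ → ℂ³` there is a nonzero homogeneous polynomial of degree `D` which vanishes at all points
`L v`, `v` homogeneous coordinates of a point of the image. (So, up to finitely many points, the image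
is contained in an algebraic curve of degree at most `D`.)

(2) The same for all such curves `B` and all holomorphic maps `B → X` which map no component of `B` to
`Z`, given by homogeneous coordinates `∑ j, y ^ j • f x j`, `0 ≤ j < d`, with an entire function `f`
such that `log ‖f x‖ ≤ φ r` for all `x` with `‖x‖ ≤ r`, for arbitrarily large `r`. -/
theorem result {s : ℕ} {ι : Type} (F : ι → MvPolynomial (Fin s) ℂ) : ∃ φ : ℝ → ℝ, Grows φ ∧
    ∀ (κ : Type) (G : κ → MvPolynomial (Fin s) ℂ) (d m D : ℕ),
      (∀ (c : Fin d → Fin (m + 1) → ℂ) (P : Fin d → Fin s → Polynomial ℂ),
        OnPlane F c (pe P) → OutPlane G c (pe P) → ImDeg D c (pe P)) ↔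
      ∀ (c : Fin d → Fin (m + 1) → ℂ) (f : ℂ → Fin d → Fin s → ℂ), Differentiable ℂ f →
        Slow φ f → OnPlane F c f → OutPlane G c f → ImDeg D c f :=
  imDeg_iff F

end Pool.Agent.Results.MP_308c18_ag.DegreesOfSlowCurves
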