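import Mathlib
import Pool.Agent.R849.FS.Gauss0

set_option autoImplicit false

/-!
# The canonical degree of the curves whose coordinates are sums of few high powers

MP_308c18_ag, Q1, for all smooth projective surfaces of general type (and varieties of general type
of any dimension), and for the curves whose coordinates (on the normalisation) are sums of `r`
functions, with small coefficients, whose zeros and poles have outside a set of at most
`σ (g + 1)` points multiplicities divisible by a large number `M`, for instance sums of `r` powers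
`v ^ M`. The conditions on the surface are those of the starting file `SparseCurves` of
MP_70ba79_ag; `canonicalHeight ℂ x T` is the degree of the pullback of the canonical class `K`, so it
is `K · C` if `x` is the normalisation of a curve `C` in `X`.
-/

namespace Pool.Agent.Results.MP_308c18_ag.PowerSumCurves

open FF MvPolynomial Pool.Agent.W603.LV Pool.Agent.R849.FQ
open Pool.Agent.Results.MP_70ba79_ag.SparseCurves hiding result

/-- the empty divisor -/
noncomputable def noBoundary (m : ℕ) : Fin 0 → Fin 1 → MvPolynomial (Fin m) ℂ := fun i => i.elim0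

/-- `K` is the function field of a smooth projective curve, `S` a finite set of its points, and `x`
is a map from the curve to the variety `G = 0`, given by a nonzero vector of rational functions. The
coordinates are the sums `∑ u_j ρ_(j,a)`, the `u_j` are not zero, and for every point outside `S` the
orders of all `u_j` are congruent modulo `M`. -/
structure PowerMap {n g : ℕ} (G : Fin g → MvPolynomial (Fin (n + 1)) ℂ) {K : Type} [Field K]
    [Algebra ℂ K] {r : ℕ} (M : ℕ) (S : Finset (Place ℂ K)) (u : Fin r → K)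
    (ρ : Fin r → Fin (n + 1) → K) (x : Fin (n + 1) → K) : Prop where
  ne : ∀ j, u j ≠ 0
  power : ∀ P ∉ S, ∀ i j, (M : ℤ) ∣ P.ord (u i) - P.ord (u j)
  coord : ∀ a, x a = ∑ j, u j * ρ j a
  nonzero : x ≠ 0
  mem : ∀ i, aeval x (G i) = 0

/-- For all `δ`, `n`, `r` there is a number `A` such that the following holds. Let `X` be a smooth
irreducible projective variety of general type of dimension `N` in `P^n` over the complex numbers
(for `N = 2`: a surface), with the equations `G j = 0`, `deg G j ≤ δ`. There is a form `Φ` which does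
not vanish on `X` (for `N = 2` it vanishes on finitely many curves of `X`) such that for all
`M ≥ 2 (δ + 2) ^ (2 (r + 1))`, all curves, of genus `g`, all finite sets `S` of points and all maps
`x` to `X`, not into `Φ = 0`, whose coordinates are `x_a = ∑ u_j ρ_(j,a)` (`r` terms), the orders of
the `u_j` being congruent modulo `M` at each point outside `S`:

(1) `deg x ^* K ≤ A (max (2 g - 2 + #S, 0) + ∑ deg ρ_(j,a))`;

(2) `deg x ^* K ≤ A (σ + 2) (g - 1) + 2 A (σ + 1)` if `#S + ∑ deg ρ_(j,a) ≤ σ (g + 1)`. -/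
theorem result (δ n r : ℕ) : ∃ A : ℕ, ∀ {N s g : ℕ} (_ : n + 1 = N + 1 + s)
    (G : Fin g → MvPolynomial (Fin (n + 1)) ℂ) (e : Fin g → ℕ)
    (_ : ∀ j, (G j).IsHomogeneous (e j)) (_ : ∀ j, e j ≤ δ)
    (_ : DimGE N G) (_ : SmoothPair s G (noBoundary (n + 1))) (_ : Irred G)
    (_ : LogGeneralType N G (noBoundary (n + 1)) (fun i => i.elim0)),
    ∃ (Φ : MvPolynomial (Fin (n + 1)) ℂ) (a : ℕ), Φ.IsHomogeneous a ∧
      (∃ z : Fin (n + 1) → ℂ, OnX G z ∧ aeval z Φ ≠ 0) ∧
      ∀ (M : ℕ), 2 * (δ + 2) ^ (2 * (r + 1)) ≤ M →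
        ∀ (K : Type) [Field K] [Algebra ℂ K] [IsFF ℂ K] (S : Finset (Place ℂ K)) (u : Fin r → K)
          (ρ : Fin r → Fin (n + 1) → K) (x : Fin (n + 1) → K), PowerMap G M S u ρ x →
          aeval x Φ ≠ 0 →
          ∀ T : Matrix (Fin (n + 1)) (Fin (N + 1)) K, IsTangentBasis G x T →
            canonicalHeight ℂ x T ≤
              A * (max (canDeg ℂ K + S.card) 0 + ∑ j, ∑ a, hgt ℂ (ρ j a)) ∧
            ∀ σ : ℕ, 2 * (S.card + ∑ j, ∑ a, hgt ℂ (ρ j a)) ≤ σ * (canDeg ℂ K + 4) →
              2 * canonicalHeight ℂ x T ≤ A * ((σ + 2) * canDeg ℂ K + 4 * (σ + 1)) := by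
  classical
  obtain ⟨A, hA⟩ := deg_bound δ r
  refine ⟨(n + 1) * (n * δ) * A, ?_⟩
  intro N s g hn G e hG he hdim hsm hirr hlgt
  obtain ⟨E, hE⟩ : ∃ E : Fin 0 → MvPolynomial (Fin (n + 1)) ℂ, E = fun i => i.elim0 := ⟨_, rfl⟩
  obtain ⟨d, hd⟩ : ∃ d : Fin 0 → ℕ, d = fun i => i.elim0 := ⟨_, rfl⟩
  have hEE : (fun i (_ : Fin 1) => E i) = noBoundary (n + 1) := by
    funext i
    exact i.elim0
  have hdd : (fun i (_ : Fin 1) => d i) = fun i => i.elim0 := by
    funext i
    exact i.elim0
  obtain ⟨Φ, a, B, hΦ, hΦX, hB⟩ := exists_bound (r := r) hn G e hG (fun i (_ : Fin 1) => E i)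
    (fun i _ => d i) (fun i => i.elim0) hdim (by rw [hEE]; exact hsm) hirr
    (by rw [hEE, hdd]; exact hlgt)
  refine ⟨Φ, a, hΦ, hΦX, fun M hM K _ _ _ S u ρ x hx hxΦ T hT => ?_⟩
  have h1 := hA G e hG he E d (fun i => i.elim0) (by simp) Φ B hB M hM K S u ρ x
    ⟨hx.ne, fun P hP => by
      rcases Nat.eq_zero_or_pos r with h0 | h0
      · subst h0
        exact ⟨0, fun j => j.elim0, fun i => i.elim0⟩
      · exact ⟨P.ord (u ⟨0, h0⟩), fun j => hx.power P hP j _, fun i => i.elim0⟩,
      hx.coord, hx.nonzero, hx.mem, fun i => i.elim0⟩ hxΦ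
  have h2 := Pool.Agent.R849.FS.canonical_le hn hG he hsm x T hx.nonzero hx.mem hT
  have hx0 : ∃ a, x a ≠ 0 := by
    by_contra hno
    push Not at hno
    exact hx.nonzero (funext hno)
  have h3 : (0 : ℤ) ≤ height ℂ x := Pool.Agent.Y731.FG.hgtP_nonneg hx0
  have h4 : (N + 1) * (s * δ) ≤ (n + 1) * (n * δ) :=
    Nat.mul_le_mul (by omega) (Nat.mul_le_mul_right _ (by omega))
  have h5 : (((N + 1) * (s * δ) : ℕ) : ℤ) * height ℂ x ≤
      ((n + 1) * (n * δ) : ℕ) * height ℂ x :=
    mul_le_mul_of_nonneg_right (by exact_mod_cast h4) h3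
  have h6 : canonicalHeight ℂ x T ≤ (((n + 1) * (n * δ) * A : ℕ) : ℤ) *
      (max (canDeg ℂ K + S.card) 0 + ∑ j, ∑ a, hgt ℂ (ρ j a)) := by
    have h7 := mul_le_mul_of_nonneg_left h1 (by positivity : (0 : ℤ) ≤ ((n + 1) * (n * δ) : ℕ))
    refine (h2.trans (h5.trans h7)).trans (le_of_eq ?_)
    push_cast
    ring
  refine ⟨h6, fun σ hσ => ?_⟩
  have h7 : (0 : ℤ) ≤ canDeg ℂ K + 2 := Pool.Agent.Y731.CC.canDeg_ge (k := ℂ) (K := K)
  have h8 : max (canDeg ℂ K + (S.card : ℤ)) 0 ≤ canDeg ℂ K + 2 + S.card := by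
    refine max_le (by linarith) ?_
    have : (0 : ℤ) ≤ S.card := by positivity
    linarith
  have h9 : 2 * (max (canDeg ℂ K + (S.card : ℤ)) 0 + ∑ j, ∑ a, hgt ℂ (ρ j a)) ≤
      (σ + 2) * canDeg ℂ K + 4 * (σ + 1) := by linarith
  have h10 := mul_le_mul_of_nonneg_left h9
    (by positivity : (0 : ℤ) ≤ (((n + 1) * (n * δ) * A : ℕ) : ℤ))
  linarith

end Pool.Agent.Results.MP_308c18_ag.PowerSumCurves
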